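import Pool.Agent.X201.AT.Coset

/-!
The labels of cosets satisfy the braid relations.
-/

set_option autoImplicit false

namespace Pool.Agent.X201.AT

open Pool.Agent.Helper741 Pool.Agent.TH107 CoxeterSystem

section num

open Real

variable {B : Type} (M : CoxeterMatrix B)

theorem qs_pos {a b : B} (h : a ≠ b) (h0 : M a b ≠ 0) {k : ℕ} (hk1 : 1 ≤ k) (hk : k + 1 ≤ M a b) :
    0 < qs (cc M a b) k := by
  have hs := sin_pos_of_ne M h h0
  have hm : (0 : ℝ) < (M a b : ℝ) := by exact_mod_cast Nat.pos_of_ne_zero h0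
  have hk1' : (1 : ℝ) ≤ (k : ℝ) := by exact_mod_cast hk1
  have hk' : (k : ℝ) + 1 ≤ (M a b : ℝ) := by exact_mod_cast hk
  have h1 : 0 < sin (k * (π / (M a b : ℝ))) := by
    apply sin_pos_of_pos_of_lt_pi
    · have := pi_pos
      positivity
    · rw [mul_div_assoc', div_lt_iff₀ hm]
      nlinarith [pi_pos]
  rw [← qs_sin] at h1
  exact pos_of_mul_pos_left h1 hs.le

theorem qs_top {a b : B} (h : a ≠ b) (h0 : M a b ≠ 0) : qs (cc M a b) (M a b) = 0 := by
  have hs := sin_pos_of_ne M h h0
  have hm : (M a b : ℝ) ≠ 0 := by exact_mod_cast h0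
  have h1 := qs_sin (π / (M a b : ℝ)) (M a b)
  have h2 : ((M a b : ℕ) : ℝ) * (π / (M a b : ℝ)) = π := by field_simp
  rw [h2, sin_pi] at h1
  exact (mul_eq_zero.mp h1).resolve_right hs.ne'

theorem qs_pred {a b : B} (h : a ≠ b) (h0 : M a b ≠ 0) {k : ℕ} (hk : M a b = k + 1) :
    qs (cc M a b) k = 1 := by
  have hs := sin_pos_of_ne M h h0
  have hm : (M a b : ℝ) ≠ 0 := by exact_mod_cast h0
  have h1 := qs_sin (π / (M a b : ℝ)) k
  have h3 : (k : ℝ) = (M a b : ℝ) - 1 := by rw [hk]; push_cast; ring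
  have h2 : (k : ℝ) * (π / (M a b : ℝ)) = π - π / (M a b : ℝ) := by
    rw [h3]; field_simp
  rw [h2, sin_pi_sub] at h1
  have : (qs (cc M a b) k - 1) * sin (π / (M a b : ℝ)) = 0 := by
    rw [sub_mul, one_mul]
    exact sub_eq_zero.mpr h1
  have := (mul_eq_zero.mp this).resolve_right hs.ne'
  linarith

theorem M_eq_of_cc {a b x x' : B} (h : cc M x x' = cc M a b) :
    M x x' = M a b := by
  unfold cc at h
  have hmem : ∀ (i j : B), π / (M i j : ℝ) ∈ Set.Icc (0 : ℝ) π := by
    intro i j
    have hp := pi_pos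
    rcases Nat.eq_zero_or_pos (M i j) with h0 | h0
    · rw [h0]; simp [hp.le]
    · have h1 : (1 : ℝ) ≤ (M i j : ℝ) := by exact_mod_cast h0
      constructor
      · positivity
      · rw [div_le_iff₀ (by linarith)]
        nlinarith
  have h1 := injOn_cos (hmem x x') (hmem a b) h
  rw [div_eq_mul_inv, div_eq_mul_inv] at h1
  have h2 := mul_left_cancel₀ pi_ne_zero h1
  have h3 := inv_injective h2
  exact_mod_cast h3

end num

variable {B : Type} {M : CoxeterMatrix B} [Fintype B] [DecidableEq B]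
variable {W : Type} [Group W] {cs : CoxeterSystem M W} {X : Set B}

theorem geo_alt (a b : B) (k : ℕ) :
    geo cs (alt (cs.simple a) (cs.simple b) k) (ee (if Even k then a else b)) =
      qs (cc M a b) (k + 1) • ee a + qs (cc M a b) k • ee b := by
  induction k generalizing a b with
  | zero => simp
  | succ k ih =>
    have h1 : (if Even (k + 1) then a else b) = if Even k then b else a := by
      by_cases hk : Even k
      · have hk' : ¬ Even (k + 1) := by simpa [Nat.even_add_one] using hk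
        rw [if_pos hk, if_neg hk']
      · have hk' : Even (k + 1) := by simpa [Nat.even_add_one] using hk
        rw [if_neg hk, if_pos hk']
    rw [alt_succ, ← geo_geo, h1, ih b a, geo_simple, map_add, map_smul, map_smul, sg_ee, sg_ee_self,
      cc_symm M b a, qs_add_two]
    module

theorem EE_inj (a b : B) (k : ℕ) {y z : W ⧸ WX cs X} (h : EE a b k y = EE a b k z) : y = z := by
  rw [EE_eq, EE_eq] at h
  exact smul_left_cancel _ h

section braid

variable {H : Type} [Group H] (g : X → H)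

theorem LL_step (a b : B) (h0 : M a b ≠ 0) {y : W ⧸ WX cs X} (h : cs.simple a • y ≠ y) :
    LL g a b (M a b) y = LL g b a (M a b) (cs.simple a • y) := by
  obtain ⟨m, hm⟩ : ∃ m, M a b = m + 1 := ⟨M a b - 1, by omega⟩
  have h1 : lab g (if Even m then b else a) (EE b a m (cs.simple a • y)) = 1 := by
    apply lab_one'
    rw [← EE_succ', ← hm]
    intro hcon
    have h2 : EE b a m (cs.simple a • y) = EE b a (M a b) y := by
      rw [← EE_comm a b, hm]
      rfl
    rw [h2] at hcon
    exact h (EE_inj b a _ hcon)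
  rw [hm, LL_succ' g b a m, h1, mul_one]
  show lab g a y * LL g b a m (cs.simple a • y) = _
  rw [lab_one' g h, one_mul]

theorem path {a b : B} (hab : a ≠ b) (h0 : M a b ≠ 0) {y : W ⧸ WX cs X}
    (ha : 0 ≤ geo cs (dm y)⁻¹ (ee a)) (hb : 0 ≤ geo cs (dm y)⁻¹ (ee b))
    (hya : cs.simple a • y ≠ y) (k : ℕ) (hk : k + 1 ≤ M a b) :
    dm (EE a b k y) = (alt (cs.simple a) (cs.simple b) k)⁻¹ * dm y ∧ LL g a b k y = 1 := by
  induction k with
  | zero =>
    refine ⟨?_, rfl⟩
    rw [alt_zero, inv_one, one_mul]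
    rfl
  | succ k ih =>
    obtain ⟨ih1, ih2⟩ := ih (by omega)
    have key : ∀ x ∈ X, geo cs (dm (EE a b k y)) (ee x) ≠ ee (if Even k then a else b) := by
      intro x hx hcon
      rw [ih1, ← geo_geo] at hcon
      have h1 : geo cs (dm y) (ee x) = qs (cc M a b) (k + 1) • ee a + qs (cc M a b) k • ee b := by
        rw [← geo_alt (cs := cs) a b k, ← hcon, geo_apply_inv]
      rcases Nat.eq_zero_or_pos k with hk0 | hk0
      · subst hk0
        apply hya
        apply fix_of hx
        rw [h1]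
        simp
      · have h2 : (ee x : B → ℝ) = qs (cc M a b) (k + 1) • geo cs (dm y)⁻¹ (ee a) +
            qs (cc M a b) k • geo cs (dm y)⁻¹ (ee b) := by
          rw [← map_smul, ← map_smul, ← map_add, ← h1, geo_inv_apply]
        have q1 := qs_pos M hab h0 (k := k + 1) (by omega) (by omega)
        have q2 := qs_pos M hab h0 (k := k) (by omega) (by omega)
        have hz : ∀ i, i ≠ x → geo cs (dm y)⁻¹ (ee a) i = 0 ∧ geo cs (dm y)⁻¹ (ee b) i = 0 := by
          intro i hi
          have h3 := congrFun h2 i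
          have h4 : (ee x : B → ℝ) i = 0 := by simp [ee, hi]
          rw [h4] at h3
          simp only [Pi.add_apply, Pi.smul_apply, smul_eq_mul] at h3
          have h5 := ha i
          have h6 := hb i
          simp only [Pi.zero_apply] at h5 h6
          constructor <;> nlinarith [mul_nonneg q1.le h5, mul_nonneg q2.le h6]
        have hu : geo cs (dm y)⁻¹ (ee a) = (geo cs (dm y)⁻¹ (ee a) x) • ee x := by
          funext i
          by_cases hi : i = x
          · subst hi; simp [ee]
          · rw [(hz i hi).1]; simp [ee, hi]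
        have hv : geo cs (dm y)⁻¹ (ee b) = (geo cs (dm y)⁻¹ (ee b) x) • ee x := by
          funext i
          by_cases hi : i = x
          · subst hi; simp [ee]
          · rw [(hz i hi).2]; simp [ee, hi]
        have hPa : PR cs (geo cs (dm y)⁻¹ (ee a)) := ⟨⟨_, a, rfl⟩, ha⟩
        have hPb : PR cs (geo cs (dm y)⁻¹ (ee b)) := ⟨⟨_, b, rfl⟩, hb⟩
        have e1 := hPa.eq_of_smul (PR_ee cs x) hu
        have e2 := hPb.eq_of_smul (PR_ee cs x) hv
        exact hab (ee_inj (geo_injective_apply cs _ (e1.trans e2.symm)))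
    constructor
    · rw [EE_succ', dm_step key, ih1, alt_succ', mul_inv_rev, ← mul_assoc]
      congr 2
      by_cases hk' : Even k
      · rw [if_pos hk', if_pos hk', cs.inv_simple]
      · rw [if_neg hk', if_neg hk', cs.inv_simple]
    · rw [LL_succ', ih2, one_mul]
      exact lab_one g key

theorem LL_nofix {a b : B} (hab : a ≠ b) (h0 : M a b ≠ 0) {y : W ⧸ WX cs X}
    (ha : 0 ≤ geo cs (dm y)⁻¹ (ee a)) (hb : 0 ≤ geo cs (dm y)⁻¹ (ee b))
    (hya : cs.simple a • y ≠ y) : LL g a b (M a b) y = lab g b y := by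
  obtain ⟨m, hm⟩ : ∃ m, M a b = m + 1 := ⟨M a b - 1, by omega⟩
  obtain ⟨p1, p2⟩ := path g hab h0 ha hb hya m (by omega)
  rw [hm, LL_succ', p2, one_mul]
  have key : ∀ x : B, geo cs (dm (EE a b m y)) (ee x) = ee (if Even m then a else b) ↔
      geo cs (dm y) (ee x) = ee b := by
    intro x
    have h1 : geo cs (alt (cs.simple a) (cs.simple b) m) (ee (if Even m then a else b)) = ee b := by
      rw [geo_alt, ← hm, qs_top M hab h0, qs_pred M hab h0 hm]
      simp
    rw [p1, ← geo_geo]
    constructor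
    · intro h
      rw [← h1, ← h, geo_apply_inv]
    · intro h
      rw [h, ← h1, geo_inv_apply]
  by_cases hex : ∃ x : X, geo cs (dm y) (ee (x : B)) = ee b
  · obtain ⟨x, hx⟩ := hex
    rw [lab_eq g x hx, lab_eq g x ((key x).2 hx)]
  · rw [lab_one g (i := b) fun x hx h => hex ⟨⟨x, hx⟩, h⟩,
      lab_one g fun x hx h => hex ⟨⟨x, hx⟩, (key x).1 h⟩]

theorem LL_fix {a b : B} {y : W ⧸ WX cs X} (ha : cs.simple a • y = y) (hb : cs.simple b • y = y)
    (k : ℕ) : LL g a b k y = alt (lab g a y) (lab g b y) k := by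
  induction k generalizing a b with
  | zero => rw [alt_zero]; rfl
  | succ k ih =>
    show lab g a y * LL g b a k (cs.simple a • y) = _
    rw [ha, ih hb ha, alt_succ]

/-- **the braid relations** -/
theorem LL_braid (hg : ∀ x x' : X, M (x : B) x' ≠ 0 →
      alt (g x) (g x') (M (x : B) x') = alt (g x') (g x) (M (x : B) x'))
    {a b : B} (hab : a ≠ b) (h0 : M a b ≠ 0) (y : W ⧸ WX cs X) :
    LL g a b (M a b) y = LL g b a (M a b) y := by
  have h0' : M b a ≠ 0 := by rwa [M.symmetric]
  induction hn : cs.length (dm y) using Nat.strong_induction_on generalizing y with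
  | _ n ih =>
  have red : ∀ i : B, ¬ 0 ≤ geo cs (dm y)⁻¹ (ee i) → cs.simple i • y ≠ y ∧
      cs.length (dm (cs.simple i • y)) < n := by
    intro i hi
    have h1 : ∀ x ∈ X, geo cs (dm y) (ee x) ≠ ee i := by
      intro x hx hxi
      apply hi
      rw [← hxi, geo_inv_apply]
      exact ee_nonneg x
    refine ⟨fun h => ?_, ?_⟩
    · obtain ⟨x, hx, hxi⟩ := fix_iff.1 h
      exact h1 x hx hxi
    · rw [dm_step h1, ← hn]
      have hrt : IsRt cs (geo cs (dm y)⁻¹ (ee i)) := ⟨_, i, rfl⟩
      have h2 : geo cs (dm y)⁻¹ (ee i) ≤ 0 := (hrt.not_nonneg).1 hi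
      rw [geo_nonpos_iff, cs.length_inv] at h2
      rw [← cs.length_inv, mul_inv_rev, cs.inv_simple]
      exact h2
  by_cases ha : 0 ≤ geo cs (dm y)⁻¹ (ee a)
  swap
  · obtain ⟨r1, r2⟩ := red a ha
    have h1 := ih _ r2 (cs.simple a • y) rfl
    rw [LL_step g a b h0 r1, ← h1]
    have h2 : cs.simple a • (cs.simple a • y) ≠ cs.simple a • y := fun h => r1 (smul_left_cancel _ h)
    rw [LL_step g a b h0 h2, ← mul_smul, cs.simple_mul_simple_self, one_smul]
  by_cases hb : 0 ≤ geo cs (dm y)⁻¹ (ee b)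
  swap
  · obtain ⟨r1, r2⟩ := red b hb
    have h1 := ih _ r2 (cs.simple b • y) rfl
    have h2 : cs.simple b • (cs.simple b • y) ≠ cs.simple b • y := fun h => r1 (smul_left_cancel _ h)
    have e1 := LL_step g b a h0' r1
    have e2 := LL_step g b a h0' h2
    rw [← mul_smul, cs.simple_mul_simple_self, one_smul] at e2
    rw [M.symmetric b a] at e1 e2
    rw [e1, h1, e2]
  by_cases hya : cs.simple a • y = y
  · by_cases hyb : cs.simple b • y = y
    · rw [LL_fix g hya hyb, LL_fix g hyb hya]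
      obtain ⟨x, hx, hxa⟩ := fix_iff.1 hya
      obtain ⟨x', hx', hxb⟩ := fix_iff.1 hyb
      rw [lab_eq g ⟨x, hx⟩ hxa, lab_eq g ⟨x', hx'⟩ hxb]
      have hne : x ≠ x' := by
        rintro rfl
        exact hab (ee_inj (hxa.symm.trans hxb))
      have h1 := bil_geo cs (dm y) (ee x) (ee x')
      rw [hxa, hxb, bil_ee_left, bil_ee_left, coroot_ee, coroot_ee] at h1
      have h2 : cc M x x' = cc M a b := by linarith
      have h3 := M_eq_of_cc M h2
      have h4 := hg ⟨x, hx⟩ ⟨x', hx'⟩ (by show M x x' ≠ 0; rwa [h3])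
      have h5 : M x x' = M a b := h3
      show alt (g ⟨x, hx⟩) (g ⟨x', hx'⟩) (M a b) = alt (g ⟨x', hx'⟩) (g ⟨x, hx⟩) (M a b)
      rw [← h5]
      exact h4
    · -- `b` moves, `a` fixes
      have e1 : LL g b a (M b a) y = lab g a y := LL_nofix g (Ne.symm hab) h0' hb ha hyb
      rw [M.symmetric b a] at e1
      rw [e1]
      obtain ⟨m, hm⟩ : ∃ m, M a b = m + 1 := ⟨M a b - 1, by omega⟩
      have p2 := (path g (Ne.symm hab) h0' hb ha hyb m (by rw [M.symmetric b a]; omega)).2
      rw [hm]
      show lab g a y * LL g b a m (cs.simple a • y) = _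
      rw [hya, p2, mul_one]
  · have e1 : LL g a b (M a b) y = lab g b y := LL_nofix g hab h0 ha hb hya
    rw [e1]
    by_cases hyb : cs.simple b • y = y
    · obtain ⟨m, hm⟩ : ∃ m, M a b = m + 1 := ⟨M a b - 1, by omega⟩
      have p2 := (path g hab h0 ha hb hya m (by omega)).2
      rw [hm]
      show _ = lab g b y * LL g a b m (cs.simple b • y)
      rw [hyb, p2, mul_one]
    · have e2 : LL g b a (M b a) y = lab g a y := LL_nofix g (Ne.symm hab) h0' hb ha hyb
      rw [M.symmetric b a] at e2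
      rw [e2, lab_one' g hya, lab_one' g hyb]

end braid

end Pool.Agent.X201.AT
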