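import Mathlib
import Pool.Agent.TH107.Root
import Pool.Agent.Helper741.Matsumoto

/-!
Cosets of standard parabolic subgroups of Coxeter groups: minimal representatives and labels.
-/

set_option autoImplicit false

namespace Pool.Agent.X201.AT

open Pool.Agent.Helper741 Pool.Agent.TH107 CoxeterSystem

variable {B : Type} {M : CoxeterMatrix B} [Fintype B] [DecidableEq B]
variable {W : Type} [Group W] (cs : CoxeterSystem M W) (X : Set B)

/-- the standard parabolic subgroup -/
def WX : Subgroup W := Subgroup.closure (cs.simple '' X)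

/-- minimal representatives of cosets, in terms of the geometric representation -/
def Good (d : W) : Prop := ∀ x ∈ X, 0 ≤ geo cs d (ee x)

variable {cs X}

theorem WX_coord {w : W} (hw : w ∈ WX cs X) : ∀ (v : B → ℝ) (i : B), i ∉ X → geo cs w v i = v i := by
  unfold WX at hw
  induction hw using Subgroup.closure_induction with
  | mem w hw =>
    obtain ⟨x, hx, rfl⟩ := hw
    intro v i hi
    have hix : i ≠ x := fun h => hi (h ▸ hx)
    rw [geo_simple, sg_apply]
    simp [ee, hix]
  | one => intro v i _; simp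
  | mul a b _ _ ha hb =>
    intro v i hi
    rw [← geo_geo, ha _ i hi, hb _ i hi]
  | inv a _ ha =>
    intro v i hi
    have h1 := ha (geo cs a⁻¹ v) i hi
    rw [geo_geo, mul_inv_cancel, map_one, Module.End.one_apply] at h1
    exact h1.symm

theorem good_unique {d w : W} (hw : w ∈ WX cs X) (hd : Good cs X d) (hdw : Good cs X (d * w)) :
    w = 1 := by
  by_contra hne
  have h1 : ∃ j, ¬ 0 ≤ geo cs w (ee j) := by
    by_contra hcon
    exact hne (eq_one_of_geo cs w fun j => by
      by_contra hj
      exact hcon ⟨j, hj⟩)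
  obtain ⟨j, hj⟩ := h1
  have hrt : IsRt cs (geo cs w (ee j)) := ⟨w, j, rfl⟩
  have hneg := (hrt.not_nonneg).1 hj
  have hjX : j ∈ X := by
    by_contra hjX
    have h2 := WX_coord hw (ee j) j hjX
    have h3 := hneg j
    rw [h2] at h3
    simp [ee] at h3
    exact absurd h3 (by norm_num)
  have hexp : geo cs w (ee j) = ∑ i, (geo cs w (ee j) i) • (ee i : B → ℝ) := by
    funext k
    simp [ee, Finset.sum_apply, Pi.single_apply]
  have hle : geo cs d (geo cs w (ee j)) ≤ 0 := by
    rw [hexp, map_sum]
    apply Finset.sum_nonpos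
    intro i _
    rw [map_smul]
    by_cases hi : i ∈ X
    · intro k
      have h2 := hneg i
      have h3 := hd i hi k
      simp only [Pi.smul_apply, smul_eq_mul, Pi.zero_apply] at *
      nlinarith
    · have hij : i ≠ j := fun h => hi (h ▸ hjX)
      have h2 := WX_coord hw (ee j) i hi
      rw [h2]
      simp [ee, hij]
  rw [geo_geo] at hle
  exact geo_ee_ne_zero cs (d * w) j (le_antisymm hle (hdw j hjX))

theorem exists_good (y : W ⧸ WX cs X) : ∃ d : W, (d : W ⧸ WX cs X) = y ∧ Good cs X d := by
  classical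
  let P : ℕ → Prop := fun n => ∃ d : W, (d : W ⧸ WX cs X) = y ∧ cs.length d = n
  have hP : ∃ n, P n := by
    obtain ⟨d, hd⟩ := QuotientGroup.mk_surjective y
    exact ⟨_, d, hd, rfl⟩
  obtain ⟨d, hd, hdl⟩ := Nat.find_spec hP
  refine ⟨d, hd, fun x hx => ?_⟩
  rw [geo_nonneg_iff]
  have hmem : cs.simple x ∈ WX cs X := Subgroup.subset_closure ⟨x, hx, rfl⟩
  have h1 : Nat.find hP ≤ cs.length (d * cs.simple x) :=
    Nat.find_min' hP ⟨d * cs.simple x, by
      rw [← hd, eq_comm, QuotientGroup.eq]
      rwa [inv_mul_cancel_left], rfl⟩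
  have h2 := cs.length_mul_simple_ne d x
  omega

/-- the minimal representative -/
noncomputable def dm (y : W ⧸ WX cs X) : W := (exists_good y).choose

theorem dm_mk (y : W ⧸ WX cs X) : ((dm y : W) : W ⧸ WX cs X) = y := (exists_good y).choose_spec.1

theorem dm_good (y : W ⧸ WX cs X) : Good cs X (dm y) := (exists_good y).choose_spec.2

theorem dm_eq {d : W} {y : W ⧸ WX cs X} (h : (d : W ⧸ WX cs X) = y) (hd : Good cs X d) : dm y = d := by
  have h1 : (dm y)⁻¹ * d ∈ WX cs X := by
    rw [← QuotientGroup.eq, dm_mk, h]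
  have h2 := good_unique h1 (dm_good y) (by rwa [mul_inv_cancel_left])
  exact (inv_mul_eq_one.1 h2)

/-- the root condition for a fixed coset -/
theorem simple_comm {d : W} {x i : B} (h : geo cs d (ee x) = ee i) : cs.simple i * d = d * cs.simple x := by
  have h1 : d * cs.simple x * d⁻¹ = cs.simple i := by
    apply rt_inj (cs := cs) ((cs.isReflection_simple x).conj d) (cs.isReflection_simple i)
    rw [rt_conj_pos (cs.isReflection_simple x) d (by rw [rt_simple, h]; exact ee_nonneg i), rt_simple,
      rt_simple, h]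
  rw [← h1]; group

theorem fix_of {y : W ⧸ WX cs X} {x i : B} (hx : x ∈ X) (h : geo cs (dm y) (ee x) = ee i) :
    cs.simple i • y = y := by
  have h1 : ((cs.simple i * dm y : W) : W ⧸ WX cs X) = ((dm y : W) : W ⧸ WX cs X) := by
    rw [simple_comm h, eq_comm, QuotientGroup.eq, inv_mul_cancel_left]
    exact Subgroup.subset_closure ⟨x, hx, rfl⟩
  have h2 : cs.simple i • ((dm y : W) : W ⧸ WX cs X) = ((dm y : W) : W ⧸ WX cs X) := h1
  rwa [dm_mk] at h2

theorem dm_step {y : W ⧸ WX cs X} {i : B} (h : ∀ x ∈ X, geo cs (dm y) (ee x) ≠ ee i) :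
    dm (cs.simple i • y) = cs.simple i * dm y := by
  apply dm_eq
  · have h1 : cs.simple i • ((dm y : W) : W ⧸ WX cs X) = ((cs.simple i * dm y : W) : W ⧸ WX cs X) := rfl
    rw [← h1, dm_mk]
  · intro x hx
    have hrt : IsRt cs (geo cs (cs.simple i * dm y) (ee x)) := ⟨_, x, rfl⟩
    rcases hrt.cases with h1 | h1
    · exact h1
    · exfalso
      have hPR : PR cs (geo cs (dm y) (ee x)) := ⟨⟨dm y, x, rfl⟩, dm_good y x hx⟩
      rw [← geo_geo] at h1
      exact h x hx (hPR.eq_ee h1)

theorem simple_ne_one (i : B) : cs.simple i ≠ 1 := by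
  intro h
  have h1 := cs.length_simple i
  rw [h, cs.length_one] at h1
  exact absurd h1 (by norm_num)

theorem fix_iff {y : W ⧸ WX cs X} {i : B} :
    cs.simple i • y = y ↔ ∃ x ∈ X, geo cs (dm y) (ee x) = ee i := by
  constructor
  · intro h
    by_contra hcon
    have h1 := dm_step (y := y) (i := i) fun x hx hxi => hcon ⟨x, hx, hxi⟩
    rw [h] at h1
    exact simple_ne_one (cs := cs) i (right_eq_mul.1 h1)
  · rintro ⟨x, hx, h⟩
    exact fix_of hx h

theorem ee_inj {x x' : B} (h : (ee x : B → ℝ) = ee x') : x = x' := by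
  by_contra hne
  have h1 := congrFun h x
  simp [ee, hne] at h1

section lab

variable {H : Type} [Group H] (g : X → H)

open Classical in
/-- the label of a coset -/
noncomputable def lab (i : B) (y : W ⧸ WX cs X) : H :=
  if h : ∃ x : X, geo cs (dm y) (ee (x : B)) = ee i then g h.choose else 1

theorem lab_eq {i : B} {y : W ⧸ WX cs X} (x : X) (h : geo cs (dm y) (ee (x : B)) = ee i) :
    lab g i y = g x := by
  have hex : ∃ x : X, geo cs (dm y) (ee (x : B)) = ee i := ⟨x, h⟩
  have h1 : hex.choose = x := by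
    apply Subtype.ext
    apply ee_inj
    exact geo_injective_apply cs (dm y) (hex.choose_spec.trans h.symm)
  unfold lab
  rw [dif_pos hex, h1]

theorem lab_one {i : B} {y : W ⧸ WX cs X} (h : ∀ x ∈ X, geo cs (dm y) (ee x) ≠ ee i) :
    lab g i y = 1 := by
  unfold lab
  rw [dif_neg]
  rintro ⟨x, hx⟩
  exact h x x.2 hx

theorem lab_one' {i : B} {y : W ⧸ WX cs X} (h : cs.simple i • y ≠ y) : lab g i y = 1 :=
  lab_one g fun x hx hxi => h (fix_of hx hxi)

/-- the labels along an alternating walk -/
noncomputable def LL (a b : B) : ℕ → (W ⧸ WX cs X) → H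
  | 0, _ => 1
  | k + 1, y => lab g a y * LL b a k (cs.simple a • y)

/-- the end of an alternating walk -/
noncomputable def EE (a b : B) : ℕ → (W ⧸ WX cs X) → (W ⧸ WX cs X)
  | 0, y => y
  | k + 1, y => EE b a k (cs.simple a • y)

theorem EE_eq (a b : B) (k : ℕ) (y : W ⧸ WX cs X) :
    EE a b k y = (alt (cs.simple a) (cs.simple b) k)⁻¹ • y := by
  induction k generalizing a b y with
  | zero =>
    show y = _
    have : alt (cs.simple a) (cs.simple b) 0 = 1 := by simp [alt]
    rw [this, inv_one, one_smul]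
  | succ k ih =>
    show EE b a k (cs.simple a • y) = _
    rw [ih, alt_succ, mul_inv_rev, mul_smul, cs.inv_simple]

theorem EE_comm (a b : B) (y : W ⧸ WX cs X) : EE a b (M a b) y = EE b a (M a b) y := by
  rw [EE_eq, EE_eq, alt_comm_of_pow (cs.simple_mul_simple_self a) (cs.simple_mul_simple_self b)
    (cs.simple_mul_simple_pow a b)]

theorem EE_succ' (a b : B) (k : ℕ) (y : W ⧸ WX cs X) :
    EE a b (k + 1) y = cs.simple (if Even k then a else b) • EE a b k y := by
  induction k generalizing a b y with
  | zero => rfl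
  | succ k ih =>
    show EE b a (k + 1) (cs.simple a • y) = _
    rw [ih]
    by_cases hk : Even k
    · have hk' : ¬ Even (k + 1) := by simpa [Nat.even_add_one] using hk
      rw [if_pos hk, if_neg hk']; rfl
    · have hk' : Even (k + 1) := by simpa [Nat.even_add_one] using hk
      rw [if_neg hk, if_pos hk']; rfl

theorem LL_succ' (a b : B) (k : ℕ) (y : W ⧸ WX cs X) :
    LL g a b (k + 1) y = LL g a b k y * lab g (if Even k then a else b) (EE a b k y) := by
  induction k generalizing a b y with
  | zero =>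
    show lab g a y * 1 = 1 * lab g (if Even 0 then a else b) y
    rw [mul_one, one_mul, if_pos (show Even 0 from Even.zero)]
  | succ k ih =>
    show lab g a y * LL g b a (k + 1) (cs.simple a • y) =
      lab g a y * LL g b a k (cs.simple a • y) * _
    rw [ih, ← mul_assoc]
    by_cases hk : Even k
    · have hk' : ¬ Even (k + 1) := by simpa [Nat.even_add_one] using hk
      rw [if_pos hk, if_neg hk']; rfl
    · have hk' : Even (k + 1) := by simpa [Nat.even_add_one] using hk
      rw [if_neg hk, if_pos hk']; rfl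

end lab

end Pool.Agent.X201.AT
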