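import Pool.Agent.X201.AT.Main
import Pool.Agent.X176.FJ.Crit

/-!
Artin groups of arbitrary rank.
-/

set_option autoImplicit false

namespace Pool.Agent.X201.AT

open Pool.Agent.Helper741 Pool.Agent.TH107 CoxeterSystem Pool.Agent.X176.FJ
open Pool.Agent.Y110.FJ Pool.Agent.X201.FJ

variable {B : Type} (M : CoxeterMatrix B)

/-- the restriction to a subset -/
abbrev resM (X : Set B) : CoxeterMatrix X := subM M (Function.Embedding.subtype (· ∈ X))

/-- the homomorphism for an inclusion of subsets -/
def incS {X Y : Set B} (h : X ⊆ Y) : Artin (resM M X) →* Artin (resM M Y) :=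
  Artin.lift (fun i => Artin.gen (resM M Y) ⟨i, h i.2⟩) fun i j =>
    Artin.rel (M := resM M Y) ⟨i, h i.2⟩ ⟨j, h j.2⟩

theorem incS_gen {X Y : Set B} (h : X ⊆ Y) (i : X) :
    incS M h (Artin.gen (resM M X) i) = Artin.gen (resM M Y) ⟨i, h i.2⟩ := Artin.lift_gen _ _ _

theorem incS_injective {X Y : Set B} (h : X ⊆ Y) (hY : Y.Finite) : Function.Injective (incS M h) := by
  have : Finite Y := hY.to_subtype
  exact inc_injective' (resM M Y) (Set.embeddingOfSubset X Y h)

/-- the directed product of the Artin groups of the finite subsets -/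
abbrev Big : Type := (T : {S : Set B // S.Finite}) → Artin (resM M T.1)

/-- the elements which are trivial for large subsets -/
def small : Subgroup (Big M) where
  carrier := {f | ∃ T0 : {S : Set B // S.Finite}, ∀ T, T0 ≤ T → f T = 1}
  one_mem' := ⟨⟨∅, Set.finite_empty⟩, fun _ _ => rfl⟩
  mul_mem' := by
    rintro f g ⟨T0, h0⟩ ⟨T1, h1⟩
    refine ⟨⟨T0.1 ∪ T1.1, T0.2.union T1.2⟩, fun T hT => ?_⟩
    show f T * g T = 1
    rw [h0 T (le_trans (Set.subset_union_left : T0.1 ⊆ _) hT),
      h1 T (le_trans (Set.subset_union_right : T1.1 ⊆ _) hT), mul_one]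
  inv_mem' := by
    rintro f ⟨T0, h0⟩
    refine ⟨T0, fun T hT => ?_⟩
    show (f T)⁻¹ = 1
    rw [h0 T hT, inv_one]

instance : (small M).Normal where
  conj_mem := by
    rintro f ⟨T0, h0⟩ g
    refine ⟨T0, fun T hT => ?_⟩
    show g T * f T * (g T)⁻¹ = 1
    rw [h0 T hT, mul_one, mul_inv_cancel]

open Classical in
/-- the image of a generator -/
noncomputable def bigGen (s : B) : Big M := fun T =>
  if h : s ∈ T.1 then Artin.gen (resM M T.1) ⟨s, h⟩ else 1

theorem alt_apply {ι : Type} {G : ι → Type} [∀ i, Group (G i)] (a b : (i : ι) → G i) (n : ℕ) (i : ι) :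
    (alt a b n) i = alt (a i) (b i) n := by
  have := map_alt (Pi.evalMonoidHom G i) a b n
  exact this

/-- the homomorphism to the germs -/
noncomputable def germ : Artin M →* Big M ⧸ small M :=
  Artin.lift (fun s => ((bigGen M s : Big M) : Big M ⧸ small M)) fun s t => by
    have h1 := map_alt (QuotientGroup.mk' (small M)) (bigGen M s) (bigGen M t) (M s t)
    have h2 := map_alt (QuotientGroup.mk' (small M)) (bigGen M t) (bigGen M s) (M s t)
    show alt ((QuotientGroup.mk' (small M)) (bigGen M s)) ((QuotientGroup.mk' (small M)) (bigGen M t))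
      (M s t) = alt ((QuotientGroup.mk' (small M)) (bigGen M t))
      ((QuotientGroup.mk' (small M)) (bigGen M s)) (M s t)
    rw [← h1, ← h2]
    show ((_ : Big M) : Big M ⧸ small M) = ((_ : Big M) : Big M ⧸ small M)
    rw [QuotientGroup.eq]
    refine ⟨⟨{s, t}, by simp⟩, fun T hT => ?_⟩
    have hs : s ∈ T.1 := hT (by simp)
    have ht : t ∈ T.1 := hT (by simp)
    show (alt (bigGen M s) (bigGen M t) (M s t) T)⁻¹ * alt (bigGen M t) (bigGen M s) (M s t) T = 1
    rw [inv_mul_eq_one, alt_apply, alt_apply]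
    have e1 : bigGen M s T = Artin.gen (resM M T.1) ⟨s, hs⟩ := dif_pos hs
    have e2 : bigGen M t T = Artin.gen (resM M T.1) ⟨t, ht⟩ := dif_pos ht
    rw [e1, e2]
    exact Artin.rel (M := resM M T.1) ⟨s, hs⟩ ⟨t, ht⟩

open Classical in
/-- the germ of an element of the Artin group of a finite subset -/
noncomputable def bigInc {X : Set B} : Artin (resM M X) →* Big M where
  toFun := fun u T => if h : X ⊆ T.1 then incS M h u else 1
  map_one' := by
    funext T
    by_cases h : X ⊆ T.1
    · rw [dif_pos h, map_one]; rfl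
    · rw [dif_neg h]; rfl
  map_mul' := fun u v => by
    funext T
    show _ = (if h : X ⊆ T.1 then incS M h u else 1) * (if h : X ⊆ T.1 then incS M h v else 1)
    by_cases h : X ⊆ T.1
    · rw [dif_pos h, dif_pos h, dif_pos h, map_mul]
    · rw [dif_neg h, dif_neg h, dif_neg h, mul_one]

theorem germ_inc {X : Set B} (hX : X.Finite) (u : Artin (resM M X)) :
    germ M (inc M (Function.Embedding.subtype (· ∈ X)) u) = ((bigInc M u : Big M) : Big M ⧸ small M) := by
  have h1 : (germ M).comp (inc M (Function.Embedding.subtype (· ∈ X))) =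
      (QuotientGroup.mk' (small M)).comp (bigInc M) := by
    apply Artin.hom_ext
    intro s
    rw [MonoidHom.comp_apply, inc_gen]
    have h2 : germ M (Artin.gen M (s : B)) = ((bigGen M (s : B) : Big M) : Big M ⧸ small M) :=
      Artin.lift_gen _ _ _
    show germ M (Artin.gen M (s : B)) = ((bigInc M (Artin.gen _ s) : Big M) : Big M ⧸ small M)
    rw [h2, QuotientGroup.eq]
    refine ⟨⟨X, hX⟩, fun T hT => ?_⟩
    have hT' : X ⊆ T.1 := hT
    have hs : (s : B) ∈ T.1 := hT' s.2
    show (bigGen M (s : B) T)⁻¹ * bigInc M (Artin.gen _ s) T = 1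
    have e1 : bigGen M (s : B) T = Artin.gen (resM M T.1) ⟨s, hs⟩ := dif_pos hs
    have e2 : bigInc M (Artin.gen (resM M X) s) T = incS M hT' (Artin.gen (resM M X) s) := dif_pos hT'
    rw [e1, e2, incS_gen, inv_mul_eq_one]
  exact DFunLike.congr_fun h1 u

/-- **standard parabolic subgroups of finite rank** in Artin groups of arbitrary rank -/
theorem inc_inj_fin {X : Set B} (hX : X.Finite) :
    Function.Injective (inc M (Function.Embedding.subtype (· ∈ X))) := by
  rw [injective_iff_map_eq_one]
  intro u hu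
  have h1 := germ_inc M hX u
  rw [hu, map_one] at h1
  have h2 := QuotientGroup.eq.1 (h1 : (((1 : Big M) : Big M ⧸ small M)) = ((bigInc M u : Big M) : Big M ⧸ small M))
  rw [inv_one, one_mul] at h2
  obtain ⟨T0, h0⟩ := h2
  have h3 := h0 ⟨T0.1 ∪ X, T0.2.union hX⟩ (Set.subset_union_left : T0.1 ⊆ _)
  have h4 : bigInc M u ⟨T0.1 ∪ X, T0.2.union hX⟩ =
      incS M (Set.subset_union_right : X ⊆ T0.1 ∪ X) u := dif_pos _
  rw [h4] at h3
  exact (injective_iff_map_eq_one _).1 (incS_injective M _ (T0.2.union hX)) u h3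

theorem mem_par_fin (x : Artin M) : ∃ S : Set B, S.Finite ∧ x ∈ par M S := by
  induction x using Artin.induction with
  | one => exact ⟨∅, Set.finite_empty, one_mem _⟩
  | gen i => exact ⟨{i}, Set.finite_singleton i, Subgroup.subset_closure ⟨i, rfl, rfl⟩⟩
  | mul x y hx hy =>
    obtain ⟨S, hS, h1⟩ := hx
    obtain ⟨T, hT, h2⟩ := hy
    exact ⟨S ∪ T, hS.union hT, mul_mem
      (Subgroup.closure_mono (Set.image_mono Set.subset_union_left) h1)
      (Subgroup.closure_mono (Set.image_mono Set.subset_union_right) h2)⟩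
  | inv x hx =>
    obtain ⟨S, hS, h1⟩ := hx
    exact ⟨S, hS, inv_mem h1⟩

variable {C : ∀ (G : Type) [Group G], Prop}

/-- **Artin groups of arbitrary rank** -/
theorem artin_iff (hC : ClosedE C) (hcox : ∀ (B : Type) [Finite B] (M : CoxeterMatrix B), C M.Group) :
    C (Artin M) ↔ ∀ X : Set B, X.Finite → (∀ i ∈ X, ∀ j ∈ X, M i j ≠ 0) → C (par M X) := by
  constructor
  · intro h X _ _
    exact hC.base.of_injective _ _ (par M X).subtype (par M X).subtype_injective h
  intro h
  refine c_loc hC.base fun E hE => ?_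
  choose S hS hmem using mem_par_fin M
  let T : Set B := ⋃ x ∈ E, S x
  have hT : T.Finite := hE.biUnion fun x _ => hS x
  have : Finite T := hT.to_subtype
  have hle : Subgroup.closure E ≤ par M T := by
    rw [Subgroup.closure_le]
    intro x hx
    exact Subgroup.closure_mono (Set.image_mono (Set.subset_biUnion_of_mem (u := S) hx)) (hmem x)
  have hCT : C (par M T) := by
    rw [← range_inc_set]
    let e := MonoidHom.ofInjective (inc_inj_fin M hT)
    refine hC.base.of_injective _ _ e.symm.toMonoidHom e.symm.injective ?_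
    refine (artin_main hC hcox (resM M T)).2 fun X hX => ?_
    have h1 : C (par M (Subtype.val '' X)) := h _ ((Set.toFinite X).image _) (by
      rintro _ ⟨i, hi, rfl⟩ _ ⟨j, hj, rfl⟩
      exact hX i hi j hj)
    let ι := inc M (Function.Embedding.subtype (· ∈ T))
    have hmap : ∀ x ∈ par (resM M T) X, ι x ∈ par M (Subtype.val '' X) := by
      intro x hx
      have h2 : (par (resM M T) X).map ι = par M (Subtype.val '' X) := by
        unfold par
        rw [MonoidHom.map_closure]
        congr 1
        ext y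
        constructor
        · rintro ⟨_, ⟨i, hi, rfl⟩, rfl⟩
          exact ⟨i, ⟨i, hi, rfl⟩, (inc_gen M (Function.Embedding.subtype (· ∈ T)) i).symm⟩
        · rintro ⟨_, ⟨i, hi, rfl⟩, rfl⟩
          exact ⟨_, ⟨i, hi, rfl⟩, inc_gen M (Function.Embedding.subtype (· ∈ T)) i⟩
      rw [← h2]
      exact ⟨x, hx, rfl⟩
    let j : par (resM M T) X →* par M (Subtype.val '' X) :=
      { toFun := fun x => ⟨ι x, hmap x x.2⟩
        map_one' := Subtype.ext (map_one ι)
        map_mul' := fun x y => Subtype.ext (map_mul ι _ _) }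
    refine hC.base.of_injective _ _ j ?_ h1
    intro x y hxy
    exact Subtype.ext (inc_inj_fin M hT (congrArg Subtype.val hxy))
  exact hC.base.of_injective _ _ (Subgroup.inclusion hle) (Subgroup.inclusion_injective hle) hCT

end Pool.Agent.X201.AT
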