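import Pool.Agent.X201.AT.Phi
import Pool.Agent.X201.FJ.AmgTree

/-!
Artin groups: reduction to the standard parabolic subgroups with finite labels.
-/

set_option autoImplicit false

namespace Pool.Agent.X201.AT

open Pool.Agent.Helper741 Pool.Agent.TH107 CoxeterSystem Pool.Agent.X176.FJ
open Pool.Agent.Y110.FJ Pool.Agent.X201.FJ

variable {C : ∀ (G : Type) [Group G], Prop}

/-- the subgroup generated by the generators in `X` -/
def par {B : Type} (M : CoxeterMatrix B) (X : Set B) : Subgroup (Artin M) :=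
  Subgroup.closure (Artin.gen M '' X)

theorem range_inc {B K : Type} (M : CoxeterMatrix B) (e : K ↪ B) :
    (inc M e).range = par M (Set.range e) := by
  have h1 : (⊤ : Subgroup (Artin (subM M e))) = Subgroup.closure (Set.range (Artin.gen (subM M e))) :=
    Artin.closure_range_gen.symm
  rw [MonoidHom.range_eq_map, h1, MonoidHom.map_closure]
  unfold par
  congr 1
  ext x
  constructor
  · rintro ⟨_, ⟨i, rfl⟩, rfl⟩
    exact ⟨e i, ⟨i, rfl⟩, (inc_gen M e i).symm⟩
  · rintro ⟨_, ⟨i, rfl⟩, rfl⟩
    exact ⟨Artin.gen _ i, ⟨i, rfl⟩, inc_gen M e i⟩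

theorem range_inc_set {B : Type} (M : CoxeterMatrix B) (X : Set B) :
    (inc M (Function.Embedding.subtype (· ∈ X))).range = par M X := by
  rw [range_inc]
  congr 1
  exact Subtype.range_coe

/-- standard parabolic subgroups are Artin groups (van der Lek) -/
theorem inc_injective {B : Type} [Finite B] (M : CoxeterMatrix B) (X : Set B) :
    Function.Injective (inc M (Function.Embedding.subtype (· ∈ X))) := by
  obtain ⟨P, hP, f, -, hf⟩ := detect M X
  intro u v huv
  apply hf
  show f _ = f _
  rw [huv]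

theorem inc_injective' {B K : Type} [Finite B] (M : CoxeterMatrix B) (e : K ↪ B) :
    Function.Injective (inc M e) := by
  let X : Set B := Set.range e
  let M' := subM M (Function.Embedding.subtype (· ∈ X))
  let F : K → Artin M' := fun i => Artin.gen M' ⟨e i, ⟨i, rfl⟩⟩
  let j : Artin (subM M e) →* Artin M' := Artin.lift F fun a b =>
    Artin.rel (M := M') ⟨e a, ⟨a, rfl⟩⟩ ⟨e b, ⟨b, rfl⟩⟩
  let c : X → K := fun x => x.2.choose
  have hc : ∀ x : X, e (c x) = x := fun x => x.2.choose_spec
  let r : Artin M' →* Artin (subM M e) := Artin.lift (fun x => Artin.gen (subM M e) (c x)) fun x y => by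
    have h1 : M' x y = subM M e (c x) (c y) := by
      show M (x : B) (y : B) = M (e (c x)) (e (c y))
      rw [hc, hc]
    rw [h1]
    exact Artin.rel _ _
  have hrj : r.comp j = MonoidHom.id _ := by
    apply Artin.hom_ext
    intro i
    have h1 : j (Artin.gen _ i) = F i := Artin.lift_gen _ _ i
    have h2 : r (F i) = Artin.gen (subM M e) (c ⟨e i, ⟨i, rfl⟩⟩) := Artin.lift_gen _ _ _
    have h3 : c ⟨e i, ⟨i, rfl⟩⟩ = i := e.injective (hc ⟨e i, ⟨i, rfl⟩⟩)
    rw [MonoidHom.comp_apply, h1, h2, h3]
    rfl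
  have hij : (inc M (Function.Embedding.subtype (· ∈ X))).comp j = inc M e := by
    apply Artin.hom_ext
    intro i
    have h1 : j (Artin.gen _ i) = F i := Artin.lift_gen _ _ i
    rw [MonoidHom.comp_apply, h1, inc_gen, inc_gen]
    rfl
  rw [← hij]
  intro u v huv
  have h1 : j u = j v := inc_injective M X huv
  have h2 := DFunLike.congr_fun hrj u
  have h3 := DFunLike.congr_fun hrj v
  rw [MonoidHom.comp_apply, h1] at h2
  exact h2.symm.trans h3

theorem c_par (hC : ClosedE C) {B : Type} [Finite B] (M : CoxeterMatrix B) (X : Set B) :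
    C (par M X) ↔ C (Artin (subM M (Function.Embedding.subtype (· ∈ X)))) := by
  rw [← range_inc_set]
  let e := MonoidHom.ofInjective (inc_injective M X)
  exact ⟨fun h => hC.base.of_injective _ _ e.toMonoidHom e.injective h,
    fun h => hC.base.of_injective _ _ e.symm.toMonoidHom e.symm.injective h⟩

/-- the amalgam decomposition -/
theorem artin_amg {B : Type} (M : CoxeterMatrix B) {i j : B} (hij : i ≠ j) (h0 : M i j = 0) :
    Amg (par M {s | s ≠ i}) (par M {s | s ≠ j}) (par M {s | s ≠ i ∧ s ≠ j}) := by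
  classical
  have hi : ∀ s : B, s ≠ i → Artin.gen M s ∈ par M {s | s ≠ i} := fun s hs =>
    Subgroup.subset_closure ⟨s, hs, rfl⟩
  have hj : ∀ s : B, s ≠ j → Artin.gen M s ∈ par M {s | s ≠ j} := fun s hs =>
    Subgroup.subset_closure ⟨s, hs, rfl⟩
  refine ⟨?_, ?_, ?_, ?_⟩
  · exact Subgroup.closure_mono (Set.image_mono fun s hs => hs.1)
  · exact Subgroup.closure_mono (Set.image_mono fun s hs => hs.2)
  · rw [eq_top_iff, ← Artin.closure_range_gen, Subgroup.closure_le]
    rintro _ ⟨s, rfl⟩
    by_cases hs : s = i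
    · exact Subgroup.mem_sup_right (hj s (hs.trans_ne hij))
    · exact Subgroup.mem_sup_left (hi s hs)
  · intro H _ f g hfg
    let F : B → H := fun s => if hs : s = i then g ⟨Artin.gen M s, hj s (hs.trans_ne hij)⟩ else
      f ⟨Artin.gen M s, hi s hs⟩
    have F1 : ∀ (s : B) (hs : s ≠ i), F s = f ⟨Artin.gen M s, hi s hs⟩ := fun s hs => dif_neg hs
    have F2 : ∀ (s : B) (hs : s ≠ j), F s = g ⟨Artin.gen M s, hj s hs⟩ := by
      intro s hs
      by_cases h : s = i
      · exact dif_pos h
      · rw [F1 s h]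
        exact hfg _ (Subgroup.subset_closure ⟨s, ⟨h, hs⟩, rfl⟩)
    have rel1 : ∀ s t : B, s ≠ i → t ≠ i → alt (F s) (F t) (M s t) = alt (F t) (F s) (M s t) := by
      intro s t hs ht
      rw [F1 s hs, F1 t ht, ← map_alt, ← map_alt]
      congr 1
      apply Subtype.ext
      have := Artin.rel (M := M) s t
      rw [← Subgroup.coe_subtype, map_alt, map_alt]
      exact this
    have rel2 : ∀ s t : B, s ≠ j → t ≠ j → alt (F s) (F t) (M s t) = alt (F t) (F s) (M s t) := by
      intro s t hs ht
      rw [F2 s hs, F2 t ht, ← map_alt, ← map_alt]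
      congr 1
      apply Subtype.ext
      have := Artin.rel (M := M) s t
      rw [← Subgroup.coe_subtype, map_alt, map_alt]
      exact this
    have rel : ∀ s t : B, alt (F s) (F t) (M s t) = alt (F t) (F s) (M s t) := by
      intro s t
      by_cases hs : s = i
      · by_cases ht : t = j
        · rw [hs, ht, h0, alt_zero, alt_zero]
        · exact rel2 s t (hs.trans_ne hij) ht
      · by_cases ht : t = i
        · by_cases hs' : s = j
          · rw [ht, hs', M.symmetric, h0, alt_zero, alt_zero]
          · exact rel2 s t hs' (ht.trans_ne hij)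
        · exact rel1 s t hs ht
    let h : Artin M →* H := Artin.lift F rel
    have hF : ∀ s, h (Artin.gen M s) = F s := fun s => Artin.lift_gen _ _ s
    have main : ∀ (X : Set B) (u : par M X →* H), (∀ (s : B) (hs : s ∈ X),
        F s = u ⟨Artin.gen M s, Subgroup.subset_closure ⟨s, hs, rfl⟩⟩) → ∀ a : par M X, h a = u a := by
      intro X u hu a
      have h1 : h.comp (par M X).subtype = u := by
        apply MonoidHom.eq_of_eqOn_dense (s := Subtype.val ⁻¹' (Artin.gen M '' X))
        · exact Subgroup.closure_closure_coe_preimage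
        · rintro ⟨_, _⟩ ⟨s, hs, rfl⟩
          exact (hF s).trans (hu s hs)
      exact DFunLike.congr_fun h1 a
    exact ⟨h, main _ f fun s hs => F1 s hs, main _ g fun s hs => F2 s hs⟩

/-- the induction -/
theorem main_aux (hC : ClosedE C) (hcox : ∀ (B : Type) [Finite B] (M : CoxeterMatrix B), C M.Group)
    (n : ℕ) : ∀ (B : Type) [Finite B] (M : CoxeterMatrix B), Nat.card B = n →
      (∀ (K : Type) (e : K ↪ B), (∀ i j, M (e i) (e j) ≠ 0) → C (Artin (subM M e))) → C (Artin M) := by
  induction n using Nat.strong_induction_on with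
  | _ n ih =>
  intro B _ M hn hK
  by_cases hcl : ∀ i j, M i j ≠ 0
  · exact hK B (Function.Embedding.refl B) hcl
  push Not at hcl
  obtain ⟨i, j, h0⟩ := hcl
  have hij : i ≠ j := by
    rintro rfl
    rw [M.diagonal] at h0
    exact one_ne_zero h0
  have step : ∀ (X : Set B), X ≠ Set.univ → C (Artin (subM M (Function.Embedding.subtype (· ∈ X)))) := by
    intro X hX
    have hlt : Nat.card X < n := by
      rw [← hn, Nat.card_coe_set_eq]
      exact Set.ncard_lt_card hX
    exact ih _ hlt X (subM M (Function.Embedding.subtype (· ∈ X))) rfl fun K e he =>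
      hK K (e.trans (Function.Embedding.subtype (· ∈ X))) he
  have hi : ({s | s ≠ i} : Set B) ≠ Set.univ := by
    intro h
    have : i ∈ ({s | s ≠ i} : Set B) := by rw [h]; trivial
    exact this rfl
  have hj : ({s | s ≠ j} : Set B) ≠ Set.univ := by
    intro h
    have : j ∈ ({s | s ≠ j} : Set B) := by rw [h]; trivial
    exact this rfl
  have hk : ({s | s ≠ i ∧ s ≠ j} : Set B) ≠ Set.univ := by
    intro h
    have : i ∈ ({s | s ≠ i ∧ s ≠ j} : Set B) := by rw [h]; trivial
    exact this.1 rfl
  obtain ⟨P, hP, f, hf, hinj⟩ := detect M {s | s ≠ i ∧ s ≠ j}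
  refine (amg_edge hC (artin_amg M hij h0) f (hf hC (hcox B M) (step _ hk)) ?_).2
    ⟨(c_par hC M _).2 (step _ hi), (c_par hC M _).2 (step _ hj)⟩
  intro k hkm hfk
  rw [← range_inc_set] at hkm
  obtain ⟨u, rfl⟩ := hkm
  have h1 : (f.comp (inc M (Function.Embedding.subtype (· ∈ {s | s ≠ i ∧ s ≠ j})))) u = 1 := hfk
  rw [← map_one (f.comp (inc M (Function.Embedding.subtype (· ∈ {s | s ≠ i ∧ s ≠ j}))))] at h1
  rw [hinj h1, map_one]

/-- **Artin groups** -/
theorem artin_main (hC : ClosedE C) (hcox : ∀ (B : Type) [Finite B] (M : CoxeterMatrix B), C M.Group)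
    {B : Type} [Finite B] (M : CoxeterMatrix B) :
    C (Artin M) ↔ ∀ X : Set B, (∀ i ∈ X, ∀ j ∈ X, M i j ≠ 0) → C (par M X) := by
  constructor
  · intro h X _
    exact hC.base.of_injective _ _ (par M X).subtype (par M X).subtype_injective h
  · intro h
    refine main_aux hC hcox _ B M rfl fun K e he => ?_
    have h1 : C (par M (Set.range e)) := h _ (by
      rintro _ ⟨i, rfl⟩ _ ⟨j, rfl⟩
      exact he i j)
    rw [← range_inc] at h1
    exact hC.base.of_injective _ _ (inc M e).rangeRestrict
      (fun u v huv => inc_injective' M e (congrArg Subtype.val huv)) h1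

end Pool.Agent.X201.AT
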