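import Pool.Agent.X201.AT.Braid
import Pool.Agent.X176.FJ.Bool

/-!
The homomorphism from an Artin group to a wreath type product over the Coxeter group, which is
injective on a standard parabolic subgroup.
-/

set_option autoImplicit false

namespace Pool.Agent.X201.AT

open Pool.Agent.Helper741 Pool.Agent.TH107 CoxeterSystem Pool.Agent.X176.FJ
open Pool.Agent.Y110.FJ

/-- the restriction of a Coxeter matrix along an injection -/
def subM {K B : Type} (M : CoxeterMatrix B) (e : K ↪ B) : CoxeterMatrix K where
  M := fun i j => M (e i) (e j)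
  isSymm := by
    ext i j
    exact M.symmetric _ _
  diagonal := fun i => M.diagonal _
  off_diagonal := fun i j h => M.off_diagonal _ _ fun h' => h (e.injective h')

/-- the homomorphism of Artin groups given by an injection -/
def inc {K B : Type} (M : CoxeterMatrix B) (e : K ↪ B) : Artin (subM M e) →* Artin M :=
  Artin.lift (fun i => Artin.gen M (e i)) fun i j => Artin.rel (e i) (e j)

@[simp] theorem inc_gen {K B : Type} (M : CoxeterMatrix B) (e : K ↪ B) (i : K) :
    inc M e (Artin.gen (subM M e) i) = Artin.gen M (e i) := Artin.lift_gen _ _ _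

section

variable {B : Type} {M : CoxeterMatrix B} [Fintype B] [DecidableEq B]
variable {W : Type} [Group W] (cs : CoxeterSystem M W) {X : Set B}
variable {H : Type} [Group H] (g : X → H)

/-- the labels as an element of the group of functions -/
noncomputable def labF (i : B) : FR (W ⧸ WX cs X) H where
  f := fun y => lab g i y
  fin := by
    classical
    refine Set.Finite.subset ((Set.finite_range g).union (Set.finite_singleton 1)) ?_
    rintro _ ⟨y, rfl⟩
    show lab g i y ∈ _
    unfold lab
    split_ifs with h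
    · exact Or.inl ⟨_, rfl⟩
    · exact Or.inr rfl

/-- the image of a generator -/
noncomputable def phiGen (i : B) : FR (W ⧸ WX cs X) H ⋊[frAct (W ⧸ WX cs X) (1 : W →* MulAut H)] W :=
  ⟨labF cs g i, cs.simple i⟩

theorem phi_alt (a b : B) (k : ℕ) :
    (∀ y, (alt (phiGen cs g a) (phiGen cs g b) k).left.f y = LL g a b k y) ∧
    (alt (phiGen cs g a) (phiGen cs g b) k).right = alt (cs.simple a) (cs.simple b) k := by
  induction k generalizing a b with
  | zero =>
    rw [alt_zero]
    exact ⟨fun y => rfl, by rw [alt_zero]; rfl⟩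
  | succ k ih =>
    obtain ⟨h1, h2⟩ := ih b a
    rw [alt_succ]
    constructor
    · intro y
      show lab g a y * (alt (phiGen cs g b) (phiGen cs g a) k).left.f ((cs.simple a)⁻¹ • y) =
        lab g a y * LL g b a k (cs.simple a • y)
      rw [h1, cs.inv_simple]
    · rw [SemidirectProduct.mul_right, h2, alt_succ]
      rfl

theorem phi_rel (hg : ∀ x x' : X, M (x : B) x' ≠ 0 →
      alt (g x) (g x') (M (x : B) x') = alt (g x') (g x) (M (x : B) x')) (a b : B) :
    alt (phiGen cs g a) (phiGen cs g b) (M a b) = alt (phiGen cs g b) (phiGen cs g a) (M a b) := by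
  by_cases h0 : M a b = 0
  · rw [h0, alt_zero, alt_zero]
  by_cases hab : a = b
  · rw [hab]
  obtain ⟨h1, h2⟩ := phi_alt cs g a b (M a b)
  obtain ⟨h3, h4⟩ := phi_alt cs g b a (M a b)
  apply SemidirectProduct.ext
  · apply FR.ext
    funext y
    rw [h1, h3]
    exact LL_braid g hg hab h0 y
  · rw [h2, h4]
    exact alt_comm_of_pow (cs.simple_mul_simple_self a) (cs.simple_mul_simple_self b)
      (cs.simple_mul_simple_pow a b)

/-- the homomorphism -/
noncomputable def phi (hg : ∀ x x' : X, M (x : B) x' ≠ 0 →
      alt (g x) (g x') (M (x : B) x') = alt (g x') (g x) (M (x : B) x')) :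
    Artin M →* FR (W ⧸ WX cs X) H ⋊[frAct (W ⧸ WX cs X) (1 : W →* MulAut H)] W :=
  Artin.lift (phiGen cs g) (phi_rel cs g hg)

/-- the trivial coset -/
def y0 : W ⧸ WX cs X := ((1 : W) : W ⧸ WX cs X)

theorem dm_y0 : dm (y0 cs (X := X)) = 1 := by
  apply dm_eq rfl
  intro x _
  rw [map_one, Module.End.one_apply]
  exact ee_nonneg x

theorem lab_y0 (x : X) : lab g (x : B) (y0 cs) = g x := by
  apply lab_eq
  rw [dm_y0, map_one, Module.End.one_apply]

theorem fix_y0 (x : X) : cs.simple (x : B) • y0 cs (X := X) = y0 cs := by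
  apply fix_of x.2
  rw [dm_y0, map_one, Module.End.one_apply]

/-- the homomorphism is injective on the standard parabolic subgroup -/
theorem phi_inc (v : Artin (subM M (Function.Embedding.subtype (· ∈ X)))) :
    let Φ := phi cs (X := X) (H := Artin (subM M (Function.Embedding.subtype (· ∈ X))))
      (fun x => Artin.gen _ x) (fun x x' _ => Artin.rel x x')
    (Φ (inc M _ v)).left.f (y0 cs) = v ∧ (Φ (inc M _ v)).right • y0 cs (X := X) = y0 cs := by
  intro Φ
  induction v using Artin.induction with
  | one => rw [map_one, map_one]; exact ⟨rfl, one_smul _ _⟩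
  | gen x =>
    have h1 : Φ (inc M _ (Artin.gen (subM M (Function.Embedding.subtype (· ∈ X))) x)) =
        phiGen cs (fun x : X => Artin.gen (subM M (Function.Embedding.subtype (· ∈ X))) x) (x : B) := by
      rw [inc_gen]
      exact Artin.lift_gen _ _ _
    rw [h1]
    exact ⟨lab_y0 cs _ x, fix_y0 cs x⟩
  | mul u v hu hv =>
    obtain ⟨hu1, hu2⟩ := hu
    obtain ⟨hv1, hv2⟩ := hv
    rw [map_mul, map_mul]
    constructor
    · show (Φ (inc M _ u)).left.f (y0 cs) * (Φ (inc M _ v)).left.f
        ((Φ (inc M _ u)).right⁻¹ • y0 cs) = u * v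
      have h3 : (Φ (inc M _ u)).right⁻¹ • y0 cs (X := X) = y0 cs := by
        rw [inv_smul_eq_iff, hu2]
      rw [h3, hu1, hv1]
    · rw [SemidirectProduct.mul_right, mul_smul, hv2, hu2]
  | inv u hu =>
    obtain ⟨hu1, hu2⟩ := hu
    rw [map_inv, map_inv]
    constructor
    · show ((Φ (inc M _ u)).left.f (((Φ (inc M _ u)).right⁻¹)⁻¹ • y0 cs))⁻¹ = u⁻¹
      rw [inv_inv, hu2, hu1]
    · rw [SemidirectProduct.inv_right, inv_smul_eq_iff, hu2]

end

variable {C : ∀ (G : Type) [Group G], Prop}

/-- **standard parabolic subgroups**: the homomorphism of Artin groups is injective, and its image is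
detected by a homomorphism to a group in the class -/
theorem detect {B : Type} [Finite B] (M : CoxeterMatrix B) (X : Set B) :
    ∃ (P : Type) (_ : Group P) (f : Artin M →* P),
      (∀ {C : ∀ (G : Type) [Group G], Prop}, ClosedE C → C M.Group →
        C (Artin (subM M (Function.Embedding.subtype (· ∈ X)))) → C P) ∧
      Function.Injective (f.comp (inc M (Function.Embedding.subtype (· ∈ X)))) := by
  classical
  have := Fintype.ofFinite B
  let cs := M.toCoxeterSystem
  let Φ := phi cs (X := X) (H := Artin (subM M (Function.Embedding.subtype (· ∈ X))))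
      (fun x => Artin.gen _ x) (fun x x' _ => Artin.rel x x')
  refine ⟨_, inferInstance, Φ, fun hC hW hA => c_fr hC hA hW, ?_⟩
  intro u v huv
  have h1 : Φ (inc M _ u) = Φ (inc M _ v) := huv
  rw [← (phi_inc cs (X := X) u).1, ← (phi_inc cs (X := X) v).1]
  show (Φ (inc M _ u)).left.f (y0 cs) = (Φ (inc M _ v)).left.f (y0 cs)
  rw [h1]

end Pool.Agent.X201.AT
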